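import Mathlib
import Pool.Agent.P.MP_dbea21_an.Meas

set_option autoImplicit false

open MeasureTheory
open scoped ENNReal

namespace Pool.Agent.Results.MP_dbea21_an.NeilCounter

variable {S : Type} [TopologicalSpace S] [MeasurableSpace S]

/-- The functions `f + conj g` with `f, g ∈ A`. -/
def sumSet (A : Set C(S, ℂ)) : Set (S → ℂ) :=
  {h | ∃ f ∈ A, ∃ g ∈ A, h = fun s => f s + starRingEnd ℂ (g s)}

/-- The set `K(μ)`: the closure, in the weak topology on finite positive measures, of the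
measures absolutely continuous with respect to `μ` and equivalent to `μ`. -/
def KSet [OpensMeasurableSpace S] (A : Set C(S, ℂ)) (μ : FiniteMeasure S) :
    Set (FiniteMeasure S) :=
  closure {ν : FiniteMeasure S | (ν : Measure S) ≪ (μ : Measure S) ∧
    ∀ f ∈ A, ∫ s, f s ∂(ν : Measure S) = ∫ s, f s ∂(μ : Measure S)}

/-- `V` is norm dense in `L¹(μ)`. -/
def DenseL1 (V : Set (S → ℂ)) (μ : Measure S) : Prop :=
  ∀ F : S → ℂ, Integrable F μ → ∀ ε : ℝ, 0 < ε → ∃ v ∈ V, ∫ s, ‖F s - v s‖ ∂μ < ε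

/-- `V` is dense in `L^∞(σ)` for the weak topology induced by `L¹(σ)`: every basic weak-star
neighbourhood of every `φ ∈ L^∞(σ)` meets `V`. -/
def WeakStarDense (V : Set (S → ℂ)) (σ : Measure S) : Prop :=
  ∀ φ : S → ℂ, MemLp φ ∞ σ → ∀ (n : ℕ) (h : Fin n → S → ℂ), (∀ i, Integrable (h i) σ) →
    ∀ ε : ℝ, 0 < ε → ∃ v ∈ V, ∀ i, ‖∫ s, (φ s - v s) * h i s ∂σ‖ < ε

/-- `∫ log |f| dμ` in `[-∞, ∞)`, as the integral of `log⁺ |f|` minus that of `log⁻ |f|`
(with `log 0 = -∞`). -/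
noncomputable def logInt (μ : Measure S) (f : S → ℂ) : EReal :=
  ((∫⁻ s, (ENNReal.log ‖f s‖ₑ).toENNReal ∂μ : ℝ≥0∞) : EReal) -
    ((∫⁻ s, (-ENNReal.log ‖f s‖ₑ).toENNReal ∂μ : ℝ≥0∞) : EReal)

open Pool.Agent.P.MP_dbea21_an in
theorem result :
    ∃ A : Subalgebra ℂ C(Metric.closedBall (0 : ℂ) 1, ℂ),
      -- the standing hypotheses on `A`
      IsClosed A.carrier ∧
      (∀ φ : A →ₐ[ℂ] ℂ, Continuous φ → ∃! s, ∀ f : A, φ f = f.1 s) ∧
      (∀ u : A, IsUnit u → ∃ f : A, ∀ s, u.1 s = Complex.exp (f.1 s)) ∧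
      ∃ μ σ : FiniteMeasure (Metric.closedBall (0 : ℂ) 1),
        -- `μ` is extremal
        DenseL1 (sumSet A.carrier) μ.toMeasure ∧
        -- `σ` is a greatest element of `K(μ)`
        σ ∈ KSet A.carrier μ ∧
        (∀ ν ∈ KSet A.carrier μ, ∀ f ∈ A, logInt ν.toMeasure f ≤ logInt σ.toMeasure f) ∧
        -- weak-star density fails
        ¬ WeakStarDense (sumSet A.carrier) σ.toMeasure := by
  let μ₀ : FiniteMeasure D := ⟨μ, inferInstance⟩
  have hK : KSet A.carrier μ₀ = {μ₀} := by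
    have : {ν : FiniteMeasure D | (ν : Measure D) ≪ (μ₀ : Measure D) ∧
        ∀ f ∈ A.carrier, ∫ s, f s ∂(ν : Measure D) = ∫ s, f s ∂(μ₀ : Measure D)} = {μ₀} := by
      ext ν
      constructor
      · rintro ⟨h1, h2⟩
        exact Subtype.ext (unique_disc (ν : Measure D) h1 h2)
      · rintro rfl
        exact ⟨Measure.AbsolutelyContinuous.rfl, fun _ _ => rfl⟩
    rw [KSet, this, closure_singleton]
  refine ⟨A, A_closed, characters, units_exp, μ₀, μ₀, ?_, ?_, ?_, ?_⟩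
  · intro F hF ε hε
    have hF' : Integrable F μ := hF
    obtain ⟨_, ⟨_, ⟨f, hf, g, hg, rfl⟩, rfl⟩, hlt⟩ :=
      Metric.mem_closure_iff.1 (extremal (hF'.toL1 F)) ε hε
    refine ⟨_, ⟨f, hf, g, hg, rfl⟩, ?_⟩
    rw [dist_eq_norm, L1.norm_eq_integral_norm] at hlt
    refine lt_of_eq_of_lt (integral_congr_ae ?_) hlt
    filter_upwards [Lp.coeFn_sub (hF'.toL1 F) (ContinuousMap.toLp 1 μ ℂ (f + star g)),
      hF'.coeFn_toL1, ContinuousMap.coeFn_toLp (p := 1) (𝕜 := ℂ) μ (f + star g)] with s h1 h2 h3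
    rw [h1, Pi.sub_apply, h2, h3]
    rfl
  · rw [hK]; rfl
  · rw [hK]
    rintro _ rfl f _
    exact le_rfl
  · intro hd
    have hz : MemLp (fun s : D => z s) ∞ μ :=
      memLp_top_of_bound z.continuous.aestronglyMeasurable 1
        (Filter.Eventually.of_forall norm_le_one)
    obtain ⟨_, ⟨f, hf, g, hg, rfl⟩, hlt⟩ :=
      hd _ hz 1 (fun _ => hh) (fun _ => hh_integrable) 1 one_pos
    have h1 := hlt 0
    have hint : ∀ u : C(D, ℂ), Integrable (fun s => u s * hh s) μ := fun u =>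
      hh_integrable.bdd_mul u.continuous.aestronglyMeasurable
        (Filter.Eventually.of_forall u.norm_coe_le_norm)
    have h2 : ∫ s, (z s - (f s + starRingEnd ℂ (g s))) * hh s ∂μ = 1 := by
      have : (fun s => (z s - (f s + starRingEnd ℂ (g s))) * hh s) =
          fun s => z s * hh s - (f + star g) s * hh s := by
        funext s
        rw [sub_mul]
        rfl
      rw [this, integral_sub (hint z) (hint _), hh_z, hh_V ⟨f, hf, g, hg, rfl⟩, sub_zero]
    have h3 : ‖∫ s, (z s - (f s + starRingEnd ℂ (g s))) * hh s ∂μ‖ < 1 := h1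
    rw [h2, norm_one] at h3
    exact lt_irrefl _ h3

end Pool.Agent.Results.MP_dbea21_an.NeilCounter
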