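import Mathlib
import Pool.Agent.P.MP_dbea21_an.RDefs
import Pool.Agent.P.MP_dbea21_an.RFin

open MeasureTheory

namespace Pool.Agent.Results.MP_dbea21_an.Representing

open Pool.Agent.P.MP_dbea21_an.Rep

/-- If `μ` is a representing measure for a point `s₀` and `σ` is a (regular) greatest element of
`K(μ)`, then `A + conj A` is weak-star dense in `L^∞(σ)`. -/
theorem result {S : Type*} [TopologicalSpace S] [CompactSpace S] [T2Space S] [MeasurableSpace S]
    [BorelSpace S] (A : Subalgebra ℂ C(S, ℂ))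
    (hsep : ∀ s t : S, (∀ f ∈ A, f s = f t) → s = t) (s₀ : S) (μ σ : FiniteMeasure S)
    (hμ : ∀ f ∈ A, ∫ s, f s ∂μ.toMeasure = f s₀) (hreg : σ.toMeasure.Regular)
    (hσ : σ ∈ KSet A.carrier μ)
    (hg : ∀ ν ∈ KSet A.carrier μ, ∀ f ∈ A, logInt ν.toMeasure f ≤ logInt σ.toMeasure f) :
    WeakStarDense (sumSet A.carrier) σ.toMeasure :=
  main hsep μ σ hμ hσ hg

end Pool.Agent.Results.MP_dbea21_an.Representing
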